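import Pool.Agent.H385R3.SubScaleA

open Filter Topology
open scoped ENNReal
open Pool.Agent.H385R3.SubScale

namespace Pool.Agent.Results.MP_6f70ff_gt.BiinfinitePath

/-- The bi-infinite path (the Cayley graph of `ℤ`) is an infinite, connected, locally finite,
vertex transitive graph which is sub scale invariant; in fact nets exist at every scale, every
`k`-net graph of it is connected, and `C_k = 1` for every `k ≥ 1` and every `k`-net. -/
theorem result :
    Infinite ℤ ∧ pathZ.Connected ∧ LocFinite pathZ ∧ VertexTransitive pathZ ∧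
      SubScaleInvariant pathZ ∧
      (∀ k : ℕ, 1 ≤ k → ∃ N : Set ℤ, IsNet pathZ k N) ∧
      ∀ k : ℕ, 1 ≤ k → ∀ N : Set ℤ, IsNet pathZ k N →
        (netGraph pathZ k N).Connected ∧ scaleConst pathZ k N = 1 := by
  refine ⟨inferInstance, pathZ_connected, pathZ_lf, pathZ_vt, pathZ_sub, ?_, ?_⟩
  · intro k _
    obtain ⟨N, _, hN⟩ := exists_net (G := pathZ) (k := k) (F := ∅)
      (by intro u hu; exact absurd hu (Set.notMem_empty u))
    exact ⟨N, hN⟩
  · intro k hk N hN
    exact ⟨netGraph_connected pathZ_connected hN hk, scaleConst_pathZ hN hk⟩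

end Pool.Agent.Results.MP_6f70ff_gt.BiinfinitePath
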