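import Pool.Agent.H385R3.SubScaleC

open Filter Topology
open scoped ENNReal
open Pool.Agent.H385R3.SubScale

namespace Pool.Agent.Results.MP_6f70ff_gt.NonDoubling

/-- A connected, locally finite, vertex transitive graph without volume doubling admits a choice
of `k`-nets for which `limsup C_k = ∞`; in particular it is not sub scale invariant. -/
theorem result {V : Type*} (G : SimpleGraph V) (hG : G.Connected) (hf : LocFinite G)
    (ht : VertexTransitive G) (hnd : ¬ VolumeDoubling G) :
    (∃ N : ℕ → Set V, (∀ k, 1 ≤ k → IsNet G k (N k)) ∧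
      (∀ k, 1 ≤ k → (netGraph G k (N k)).Connected) ∧
      limsup (fun k => scaleConst G k (N k)) atTop = ⊤) ∧ ¬ SubScaleInvariant G := by
  obtain ⟨N, hN, hlim⟩ := unbounded_choice hG hf ht hnd
  refine ⟨⟨N, hN, fun k hk => netGraph_connected hG (hN k hk) hk, hlim⟩, fun hsub => ?_⟩
  have h1 := (hsub N hN).limsup_eq
  rw [hlim] at h1
  exact ENNReal.top_ne_one h1

end Pool.Agent.Results.MP_6f70ff_gt.NonDoubling
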